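import Pool.Agent.H90.EH.Targets

/-!
# Nonnegativity of the h*-series (MP_e3a811_co, module POS)
-/

set_option autoImplicit false

namespace Pool.Agent.H16.EH

open Finset Pool.Agent.H90.EH

/-- POS: the h*-series is nonnegative -/
theorem pf_POS (h1 : T_GW0) (h2 : T_GQ0) (h3 : T_SUM) : T_POS := by
  intro V _ _ Λ ht A hLF
  obtain ⟨w, hw⟩ := h1 V A
  obtain ⟨c, hc, hq⟩ := h2 V A
  have hqC : (∑ a ∈ A, c a • a) ∈ Cone A := ⟨c, fun a ha => (hc a ha).le, rfl⟩
  rw [h3 V Λ ht A w _ hLF hw hqC hq]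
  intro m
  rw [map_sum, map_zero]
  refine Finset.sum_nonneg fun B _ => ?_
  unfold ser
  rw [PowerSeries.coeff_mk]
  exact Int.natCast_nonneg _

end Pool.Agent.H16.EH
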